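import Pool.Agent.Helper16.Q2.LTA

/-!
# The lower bound along the line
-/

set_option autoImplicit false

namespace Pool.Agent.Helper57.QZ

open MeasureTheory Set Filter Topology

theorem lt_per {y : ℕ} (φ : Pr y → ℝ) (p : Pr y) :
    (fun q => Real.cos (Function.update φ p (φ p + 2 * Real.pi) q)) =
      fun q => Real.cos (φ q) := by
  funext q
  by_cases h : q = p
  · subst h
    rw [Function.update_self, Real.cos_add_two_pi]
  · rw [Function.update_of_ne h]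

theorem lt_Ek (k : ℕ) (x : ℝ) : |Ek k x| ≤ Real.exp |x| := by
  unfold Ek
  refine (Finset.abs_sum_le_sum_abs _ _).trans (le_trans (le_of_eq ?_)
    (Real.sum_le_exp_of_nonneg (abs_nonneg x) (k + 1)))
  refine Finset.sum_congr rfl fun j _ => ?_
  rw [abs_div, abs_pow, Nat.abs_cast]

/-- the random side -/
theorem lt_random (h2 : ST_PR0) (h3 : ST_PR1) (h4 : ST_ROT) (y : ℕ) (σ s α η : ℝ)
    (hQ : (∑ p : Pr y, aa σ p ^ 2 * vv (s * aa σ p)) / η ^ 2 +
    (∑ p : Pr y, 16 * aa σ p ^ 2 * (1 - rr (s * aa σ p))) / η +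
    (∑ p : Pr y, (aa σ p * Real.log p) ^ 2 * vv (s * aa σ p)) /
      (η * omy y σ s) ^ 2 ≤ 1 / 4) :
    3 / 4 * Real.exp (∑ p : Pr y, ell (s * aa σ p)) ≤
      ∫ φ, Real.exp (s * Sa y σ α φ) *
        lt_g y σ η (muy y σ s) (omy y σ s) (fun p => Real.cos (φ p + α)) ∂tor y := by
  set F : (Pr y → ℝ) → ℝ := fun ψ => Real.exp (s * ∑ p : Pr y, aa σ p * Real.cos (ψ p)) *
    lt_g y σ η (muy y σ s) (omy y σ s) (fun p => Real.cos (ψ p)) with hF
  have hg := lt_cont_g y σ η (muy y σ s) (omy y σ s)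
  have hFc : Continuous F := by
    rw [hF]
    fun_prop
  have e1 : ∫ φ, F (fun p => φ p + α) ∂tor y = ∫ φ, F φ ∂tor y := by
    refine h4 y α F hFc ?_
    intro φ p
    have h := lt_per φ p
    rw [hF]
    simp only
    rw [h]
    have h' : ∀ q, Real.cos (Function.update φ p (φ p + 2 * Real.pi) q) = Real.cos (φ q) :=
      fun q => congrFun h q
    simp only [h']
  set X : (Pr y → ℝ) → ℝ := fun ψ => Real.exp (∑ p : Pr y, (s * aa σ p) * Real.cos (ψ p)) with hX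
  set X1 : (Pr y → ℝ) → ℝ := fun ψ =>
    (∑ p : Pr y, aa σ p * (Real.cos (ψ p) - rr (s * aa σ p))) ^ 2 *
      Real.exp (∑ p : Pr y, (s * aa σ p) * Real.cos (ψ p)) with hX1
  set X2 : (Pr y → ℝ) → ℝ := fun ψ =>
    (∑ p : Pr y, 16 * aa σ p ^ 2 * (1 - Real.cos (ψ p))) *
      Real.exp (∑ p : Pr y, (s * aa σ p) * Real.cos (ψ p)) with hX2
  set X3 : (Pr y → ℝ) → ℝ := fun ψ =>
    (∑ p : Pr y, aa σ p * Real.log p * (Real.cos (ψ p) - rr (s * aa σ p))) ^ 2 *
      Real.exp (∑ p : Pr y, (s * aa σ p) * Real.cos (ψ p)) with hX3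
  have i0 : Integrable X (tor y) := by
    have := lt_int y 0 (fun x => Real.exp (∑ p : Pr y, (s * aa σ p) * x p)) (by fun_prop)
    simpa only [add_zero] using this
  have i1 : Integrable X1 (tor y) := by
    have := lt_int y 0 (fun x => (∑ p : Pr y, aa σ p * (x p - rr (s * aa σ p))) ^ 2 *
      Real.exp (∑ p : Pr y, (s * aa σ p) * x p)) (by fun_prop)
    simpa only [add_zero] using this
  have i2 : Integrable X2 (tor y) := by
    have := lt_int y 0 (fun x => (∑ p : Pr y, 16 * aa σ p ^ 2 * (1 - x p)) *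
      Real.exp (∑ p : Pr y, (s * aa σ p) * x p)) (by fun_prop)
    simpa only [add_zero] using this
  have i3 : Integrable X3 (tor y) := by
    have := lt_int y 0 (fun x => (∑ p : Pr y, aa σ p * Real.log p *
      (x p - rr (s * aa σ p))) ^ 2 *
      Real.exp (∑ p : Pr y, (s * aa σ p) * x p)) (by fun_prop)
    simpa only [add_zero] using this
  have e2 : F = fun ψ => X ψ - X1 ψ / η ^ 2 - X2 ψ / η - X3 ψ / (η * omy y σ s) ^ 2 := by
    funext ψ
    simp only [hF, hX, hX1, hX2, hX3, lt_g]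
    have a0 : s * ∑ p : Pr y, aa σ p * Real.cos (ψ p) =
        ∑ p : Pr y, (s * aa σ p) * Real.cos (ψ p) := by
      rw [Finset.mul_sum]
      exact Finset.sum_congr rfl fun p _ => by ring
    have a1 : ∑ p : Pr y, aa σ p * Real.cos (ψ p) - muy y σ s =
        ∑ p : Pr y, aa σ p * (Real.cos (ψ p) - rr (s * aa σ p)) := by
      unfold muy
      rw [← Finset.sum_sub_distrib]
      exact Finset.sum_congr rfl fun p _ => by ring
    have a2 : 16 * ∑ p : Pr y, aa σ p ^ 2 * (1 - Real.cos (ψ p)) =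
        ∑ p : Pr y, 16 * aa σ p ^ 2 * (1 - Real.cos (ψ p)) := by
      rw [Finset.mul_sum]
      exact Finset.sum_congr rfl fun p _ => by ring
    have a3 : ∑ p : Pr y, aa σ p * Real.log p * Real.cos (ψ p) - omy y σ s =
        ∑ p : Pr y, aa σ p * Real.log p * (Real.cos (ψ p) - rr (s * aa σ p)) := by
      unfold omy
      rw [← Finset.sum_sub_distrib]
      exact Finset.sum_congr rfl fun p _ => by ring
    rw [a0, a1, a2, a3]
    ring
  have v0 : ∫ ψ, X ψ ∂tor y = Real.exp (∑ p : Pr y, ell (s * aa σ p)) :=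
    h2 y (fun p => s * aa σ p)
  have v1 : ∫ ψ, X1 ψ ∂tor y = Real.exp (∑ p : Pr y, ell (s * aa σ p)) *
      ∑ p : Pr y, aa σ p ^ 2 * vv (s * aa σ p) :=
    (h3 y (fun p => aa σ p) (fun p => s * aa σ p)).1
  have v2 : ∫ ψ, X2 ψ ∂tor y = Real.exp (∑ p : Pr y, ell (s * aa σ p)) *
      ∑ p : Pr y, 16 * aa σ p ^ 2 * (1 - rr (s * aa σ p)) :=
    (h3 y (fun p => 16 * aa σ p ^ 2) (fun p => s * aa σ p)).2
  have v3 : ∫ ψ, X3 ψ ∂tor y = Real.exp (∑ p : Pr y, ell (s * aa σ p)) *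
      ∑ p : Pr y, (aa σ p * Real.log p) ^ 2 * vv (s * aa σ p) :=
    (h3 y (fun p => aa σ p * Real.log p) (fun p => s * aa σ p)).1
  have e3 : ∫ φ, F φ ∂tor y = Real.exp (∑ p : Pr y, ell (s * aa σ p)) *
      (1 - ((∑ p : Pr y, aa σ p ^ 2 * vv (s * aa σ p)) / η ^ 2 +
    (∑ p : Pr y, 16 * aa σ p ^ 2 * (1 - rr (s * aa σ p))) / η +
    (∑ p : Pr y, (aa σ p * Real.log p) ^ 2 * vv (s * aa σ p)) /
      (η * omy y σ s) ^ 2)) := by
    have k0 : Integrable (fun ψ => X1 ψ / η ^ 2) (tor y) := i1.div_const _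
    have k1 : Integrable (fun ψ => X ψ - X1 ψ / η ^ 2) (tor y) := i0.sub k0
    have k2 : Integrable (fun ψ => X2 ψ / η) (tor y) := i2.div_const _
    have k3 : Integrable (fun ψ => X ψ - X1 ψ / η ^ 2 - X2 ψ / η) (tor y) := k1.sub k2
    have k4 : Integrable (fun ψ => X3 ψ / (η * omy y σ s) ^ 2) (tor y) := i3.div_const _
    have w1 : ∫ ψ, (X ψ - X1 ψ / η ^ 2 - X2 ψ / η - X3 ψ / (η * omy y σ s) ^ 2) ∂tor y =
        (∫ ψ, X ψ ∂tor y) - (∫ ψ, X1 ψ ∂tor y) / η ^ 2 - (∫ ψ, X2 ψ ∂tor y) / η -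
          (∫ ψ, X3 ψ ∂tor y) / (η * omy y σ s) ^ 2 := by
      rw [integral_sub k3 k4, integral_sub k1 k2, integral_sub i0 k0, integral_div,
        integral_div, integral_div]
    have w2 : ∫ φ, F φ ∂tor y =
        ∫ ψ, (X ψ - X1 ψ / η ^ 2 - X2 ψ / η - X3 ψ / (η * omy y σ s) ^ 2) ∂tor y := by
      rw [e2]
    rw [w2, w1, v0, v1, v2, v3]
    ring
  have e4 : ∫ φ, Real.exp (s * Sa y σ α φ) *
        lt_g y σ η (muy y σ s) (omy y σ s) (fun p => Real.cos (φ p + α)) ∂tor y =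
      ∫ φ, F (fun p => φ p + α) ∂tor y := rfl
  rw [e4, e1, e3]
  have := Real.exp_pos (∑ p : Pr y, ell (s * aa σ p))
  nlinarith

/-- the event -/
def lt_P (y : ℕ) (σ α η μ ω : ℝ) (φ : Pr y → ℝ) : Prop :=
  μ - η ≤ Sa y σ α φ ∧ 16 * ∑ p : Pr y, aa σ p ^ 2 * (1 - Real.cos (φ p + α)) ≤ η ∧
    (1 - η) * ω ≤ ∑ p : Pr y, aa σ p * Real.log p * Real.cos (φ p + α)

theorem lt_point (y k : ℕ) (σ α s η μ ω : ℝ) (φ : Pr y → ℝ) (hs : 0 ≤ s) (hη : 0 < η)
    (hμ : 0 ≤ μ) (hω : 0 < ω) :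
    (lt_P y σ α η μ ω φ → Ek k (s / 2 * Sa y σ α φ) ^ 2 *
      lt_g y σ η μ ω (fun p => Real.cos (φ p + α)) ≤ Real.exp (s * (μ + η))) ∧
    (¬ lt_P y σ α η μ ω φ → Ek k (s / 2 * Sa y σ α φ) ^ 2 *
      lt_g y σ η μ ω (fun p => Real.cos (φ p + α)) ≤ 0) := by
  have hw : 0 ≤ Ek k (s / 2 * Sa y σ α φ) ^ 2 := sq_nonneg _
  have hG : lt_g y σ η μ ω (fun p => Real.cos (φ p + α)) = 1 - (Sa y σ α φ - μ) ^ 2 / η ^ 2 -
    16 * (∑ p : Pr y, aa σ p ^ 2 * (1 - Real.cos (φ p + α))) / η -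
    (∑ p : Pr y, aa σ p * Real.log p * Real.cos (φ p + α) - ω) ^ 2 / (η * ω) ^ 2 := rfl
  have t1 : 0 ≤ (Sa y σ α φ - μ) ^ 2 / η ^ 2 := by positivity
  have t2 : 0 ≤ 16 * (∑ p : Pr y, aa σ p ^ 2 * (1 - Real.cos (φ p + α))) / η := by
    refine div_nonneg (mul_nonneg (by norm_num) (Finset.sum_nonneg fun p _ => ?_)) hη.le
    exact mul_nonneg (sq_nonneg _) (by linarith [Real.cos_le_one (φ p + α)])
  have t3 : 0 ≤ (∑ p : Pr y, aa σ p * Real.log p * Real.cos (φ p + α) - ω) ^ 2 /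
    (η * ω) ^ 2 := by positivity
  have neg : lt_g y σ η μ ω (fun p => Real.cos (φ p + α)) ≤ 0 →
      Ek k (s / 2 * Sa y σ α φ) ^ 2 * lt_g y σ η μ ω (fun p => Real.cos (φ p + α)) ≤ 0 :=
    fun h => mul_nonpos_of_nonneg_of_nonpos hw h
  constructor
  · intro hP
    by_cases h : Sa y σ α φ ≤ μ + η
    · have h1 : |Sa y σ α φ| ≤ μ + η := by
        rw [abs_le]
        exact ⟨by linarith [hP.1], h⟩
      have h2 : Ek k (s / 2 * Sa y σ α φ) ^ 2 ≤ Real.exp (s * (μ + η)) := by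
        have h3 := lt_Ek k (s / 2 * Sa y σ α φ)
        calc Ek k (s / 2 * Sa y σ α φ) ^ 2 = |Ek k (s / 2 * Sa y σ α φ)| ^ 2 := (sq_abs _).symm
          _ ≤ Real.exp |s / 2 * Sa y σ α φ| ^ 2 := pow_le_pow_left₀ (abs_nonneg _) h3 2
          _ = Real.exp (s * |Sa y σ α φ|) := by
              rw [← Real.exp_nat_mul, abs_mul, abs_of_nonneg (by positivity : 0 ≤ s / 2)]
              congr 1
              push_cast
              ring
          _ ≤ Real.exp (s * (μ + η)) :=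
              Real.exp_le_exp.mpr (mul_le_mul_of_nonneg_left h1 hs)
      calc Ek k (s / 2 * Sa y σ α φ) ^ 2 * lt_g y σ η μ ω (fun p => Real.cos (φ p + α))
          ≤ Ek k (s / 2 * Sa y σ α φ) ^ 2 * 1 :=
            mul_le_mul_of_nonneg_left (by rw [hG]; linarith) hw
        _ ≤ Real.exp (s * (μ + η)) := by rw [mul_one]; exact h2
    · refine (neg ?_).trans (Real.exp_pos _).le
      have h1 : 1 ≤ (Sa y σ α φ - μ) ^ 2 / η ^ 2 := by
        rw [le_div_iff₀ (by positivity), one_mul]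
        push Not at h
        nlinarith
      rw [hG]
      linarith
  · intro hP
    apply neg
    unfold lt_P at hP
    rw [hG]
    by_cases c1 : μ - η ≤ Sa y σ α φ
    · by_cases c2 : 16 * ∑ p : Pr y, aa σ p ^ 2 * (1 - Real.cos (φ p + α)) ≤ η
      · have c3 : ¬ (1 - η) * ω ≤ ∑ p : Pr y, aa σ p * Real.log p * Real.cos (φ p + α) :=
          fun c3 => hP ⟨c1, c2, c3⟩
        push Not at c3
        have h1 : 1 ≤ (∑ p : Pr y, aa σ p * Real.log p * Real.cos (φ p + α) - ω) ^ 2 /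
            (η * ω) ^ 2 := by
          rw [le_div_iff₀ (by positivity), one_mul]
          have : 0 < η * ω := by positivity
          nlinarith
        linarith
      · push Not at c2
        have h1 : 1 ≤ 16 * (∑ p : Pr y, aa σ p ^ 2 * (1 - Real.cos (φ p + α))) / η := by
          rw [le_div_iff₀ hη, one_mul]
          exact c2.le
        linarith
    · push Not at c1
      have h1 : 1 ≤ (Sa y σ α φ - μ) ^ 2 / η ^ 2 := by
        rw [le_div_iff₀ (by positivity), one_mul]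
        nlinarith
      linarith

theorem lt_of (h1 : ST_QB) (h2 : ST_PR0) (h3 : ST_PR1) (h4 : ST_ROT) (h5 : ST_TPA)
    (h6 : ST_TPM) (h7 : ST_WT) (h8 : ST_VM3) : ST_LT := by
  intro ε hε η hη
  obtain ⟨z₀, hz₀⟩ := h1 ε hε η hη
  refine ⟨max z₀ 1, ?_⟩
  intro y k σ z α T hσ hz hzy hT hk1 hk2
  have hz1 : 1 ≤ z := (le_max_right _ _).trans hz
  have hz0 : z₀ ≤ z := (le_max_left _ _).trans hz
  have hy1 : (1 : ℝ) ≤ y := hz1.trans hzy
  have hy : 1 ≤ y := by exact_mod_cast hy1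
  obtain ⟨hω1, hQ⟩ := hz₀ y σ z hσ hz0 hzy
  have hs0 : 0 ≤ z ^ σ := Real.rpow_nonneg (by linarith) _
  generalize z ^ σ = s at hω1 hQ hs0 hk1 hk2 ⊢
  have hη0 := hη.1
  have hη1 := hη.2
  have hσ2 : 1 / 2 ≤ σ := by linarith [hσ.1, hε.1]
  have hp1 : ∀ p : Pr y, 1 ≤ (p : ℕ) := fun p => (lt_prime p).1.one_lt.le
  have hsa : ∀ p : Pr y, 0 ≤ s * aa σ p := fun p => mul_nonneg hs0 (lt_a0 _ _)
  have hr : ∀ p : Pr y, 0 ≤ rr (s * aa σ p) ∧ rr (s * aa σ p) ≤ 1 := fun p =>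
    ⟨(h8.2 _ (hsa p)).1, (h8.1 _).2.2.2⟩
  have hμ0 : 0 ≤ muy y σ s :=
    Finset.sum_nonneg fun p _ => mul_nonneg (lt_a0 _ _) (hr p).1
  have hμ1 : |muy y σ s| ≤ y := by
    have e1 : |muy y σ s| ≤ ∑ p : Pr y, |aa σ p * rr (s * aa σ p)| :=
      Finset.abs_sum_le_sum_abs _ _
    have e2 := lt_sum_le (fun p : Pr y => aa σ p * rr (s * aa σ p)) 1 (fun p => by
      rw [abs_of_nonneg (mul_nonneg (lt_a0 _ _) (hr p).1)]
      exact mul_le_one₀ (lt_a1 (by linarith) (hp1 p)) (hr p).1 (hr p).2) zero_le_one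
    linarith
  have hω2 : |omy y σ s| ≤ y := by
    have e1 : |omy y σ s| ≤ ∑ p : Pr y, |aa σ p * Real.log p * rr (s * aa σ p)| :=
      Finset.abs_sum_le_sum_abs _ _
    have e2 := lt_sum_le (fun p : Pr y => aa σ p * Real.log p * rr (s * aa σ p)) 1 (fun p => by
      rw [abs_of_nonneg (mul_nonneg (lt_al hσ2 (hp1 p)).1 (hr p).1)]
      exact mul_le_one₀ (lt_al hσ2 (hp1 p)).2 (hr p).1 (hr p).2) zero_le_one
    linarith
  have hΛ : 1 ≤ Real.exp (∑ p : Pr y, ell (s * aa σ p)) :=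
    Real.one_le_exp (Finset.sum_nonneg fun p _ => (h8.2 _ (hsa p)).2.2.1)
  have hrand := lt_random h2 h3 h4 y σ s α η hQ
  have hLy : Ly y σ s = s * muy y σ s - ∑ p : Pr y, ell (s * aa σ p) := by
    unfold Ly muy
    rw [Finset.sum_sub_distrib, Finset.mul_sum]
    congr 1
    exact Finset.sum_congr rfl fun p _ => by ring
  have hgc := lt_cont_g y σ η (muy y σ s) (omy y σ s)
  have TPg := lt_tp_g h5 y σ α η (muy y σ s) (omy y σ s) hy hσ2 hη hμ1 hω2 hω1
  have gbd : ∀ φ : Pr y → ℝ,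
      |lt_g y σ η (muy y σ s) (omy y σ s) (fun p => Real.cos (φ p + α))| ≤
        41 * (y : ℝ) ^ 2 / η ^ 2 := by
    intro φ
    have := lt_tp_bd TPg φ
    rwa [Complex.norm_real, Real.norm_eq_abs] at this
  obtain ⟨t1, t2, t3, t4, t5, t6⟩ := h5 y
  have TPS : TP y 1 (s * y) (fun φ => ((s / 2 * Sa y σ α φ : ℝ) : ℂ)) := by
    have A1 := lt_tp_aff h5 y α (fun p => aa σ p) 0
      (fun p => by
        rw [abs_of_nonneg (lt_a0 _ _)]; exact lt_a1 (by linarith) (hp1 p))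
      (by rw [abs_zero]; linarith)
    have A2 := t4 _ _ _ _ _ _ (t1 ((s / 2 : ℝ) : ℂ)) A1
    have A3 := t6 _ 1 _ (s * y) _ (by norm_num) (le_of_eq (by
      rw [Complex.norm_real, Real.norm_eq_abs, abs_of_nonneg (by positivity)]
      ring)) A2
    convert A3 using 2
    unfold Sa
    push_cast
    ring
  have TPE := lt_tp_Ek h5 y k (C := s * y) (by positivity) _ TPS
  have TPw := t4 _ _ _ _ _ _ (t5 _ _ _ TPE 2) TPg
  have hM := h6 y _ _ _ hy TPw T hT
  set f : (Pr y → ℝ) → ℝ := fun φ => Ek k (s / 2 * Sa y σ α φ) ^ 2 *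
    lt_g y σ η (muy y σ s) (omy y σ s) (fun p => Real.cos (φ p + α)) with hf
  have hM' : |(∫ t in T..(2 * T), f (lin y t)) - T * ∫ φ, f φ ∂tor y| ≤ 82 / 1000 * T := by
    have e1 : (∫ t in T..(2 * T), ((f (lin y t) : ℝ) : ℂ)) - T * ∫ φ, ((f φ : ℝ) : ℂ) ∂tor y =
        (((∫ t in T..(2 * T), f (lin y t)) - T * ∫ φ, f φ ∂tor y : ℝ) : ℂ) := by
      rw [intervalIntegral.integral_ofReal, integral_complex_ofReal]
      push_cast
      rfl
    have e2 : ‖(∫ t in T..(2 * T), ((f (lin y t) : ℝ) : ℂ)) - T * ∫ φ, ((f φ : ℝ) : ℂ) ∂tor y‖ ≤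
        2 * (((1 + s * y) ^ k) ^ 2 * (41 * (y : ℝ) ^ 2 / η ^ 2)) * (y : ℝ) ^ (2 * k + 2) := by
      convert hM using 6 <;> simp only [hf] <;> push_cast <;> rfl
    rw [e1, Complex.norm_real, Real.norm_eq_abs] at e2
    refine e2.trans ?_
    have e3 : 2 * (((1 + s * y) ^ k) ^ 2 * (41 * (y : ℝ) ^ 2 / η ^ 2)) * (y : ℝ) ^ (2 * k + 2) =
        82 / 1000 * (1000 * (1 + s * y) ^ (2 * k) * (y : ℝ) ^ (2 * k + 4) / η ^ 2) := by
      rw [← pow_mul, mul_comm k 2]
      have : (y : ℝ) ^ (2 * k + 4) = (y : ℝ) ^ (2 * k + 2) * (y : ℝ) ^ 2 := by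
        rw [← pow_add]
      rw [this]
      ring
    rw [e3]
    exact mul_le_mul_of_nonneg_left hk2 (by norm_num)
  have hW := h7 y k σ α s (41 * (y : ℝ) ^ 2 / η ^ 2)
    (fun φ => lt_g y σ η (muy y σ s) (omy y σ s) (fun p => Real.cos (φ p + α))) hs0
    (by linarith) (by fun_prop) gbd
  have hW' : |∫ φ, (Ek k (s / 2 * Sa y σ α φ) ^ 2 - Real.exp (s * Sa y σ α φ)) *
      lt_g y σ η (muy y σ s) (omy y σ s) (fun p => Real.cos (φ p + α)) ∂tor y| ≤ 41 / 400 := by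
    refine hW.trans ?_
    have e1 : 41 * (y : ℝ) ^ 2 / η ^ 2 * (1 / 4) ^ k *
        Real.exp (∑ p : Pr y, ell (3 * (s * aa σ p))) =
        41 / 400 * ((400 * (y : ℝ) ^ 2 / η ^ 2 *
          Real.exp (∑ p : Pr y, ell (3 * (s * aa σ p)))) / 4 ^ k) := by
      rw [one_div, inv_pow]
      ring
    rw [e1]
    have e2 : (400 * (y : ℝ) ^ 2 / η ^ 2 *
          Real.exp (∑ p : Pr y, ell (3 * (s * aa σ p)))) / 4 ^ k ≤ 1 :=
      div_le_one_of_le₀ hk1 (by positivity)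
    linarith
  have hEkc : Continuous (Ek k) := by
    unfold Ek
    fun_prop
  have j1 : Integrable f (tor y) := by
    have := lt_int y α (fun x => Ek k (s / 2 * ∑ p : Pr y, aa σ p * x p) ^ 2 *
      lt_g y σ η (muy y σ s) (omy y σ s) x) (by fun_prop)
    exact this
  have j2 : Integrable (fun φ => Real.exp (s * Sa y σ α φ) *
      lt_g y σ η (muy y σ s) (omy y σ s) (fun p => Real.cos (φ p + α))) (tor y) := by
    have := lt_int y α (fun x => Real.exp (s * ∑ p : Pr y, aa σ p * x p) *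
      lt_g y σ η (muy y σ s) (omy y σ s) x) (by fun_prop)
    exact this
  have e5 : ∫ φ, (Ek k (s / 2 * Sa y σ α φ) ^ 2 - Real.exp (s * Sa y σ α φ)) *
      lt_g y σ η (muy y σ s) (omy y σ s) (fun p => Real.cos (φ p + α)) ∂tor y =
      (∫ φ, f φ ∂tor y) - ∫ φ, Real.exp (s * Sa y σ α φ) *
      lt_g y σ η (muy y σ s) (omy y σ s) (fun p => Real.cos (φ p + α)) ∂tor y := by
    rw [← integral_sub j1 j2]
    refine integral_congr_ae (Eventually.of_forall fun φ => ?_)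
    simp only [hf]
    ring
  rw [e5] at hW'
  -- the upper bound
  have hfc : Continuous fun t : ℝ => f (lin y t) := by
    simp only [hf, Sa, lin]
    fun_prop
  set B : Set ℝ := {t : ℝ | t ∈ Icc T (2 * T) ∧
      muy y σ s - η ≤ Sa y σ α (lin y t) ∧
      16 * ∑ p : Pr y, aa σ p ^ 2 * (1 - Real.cos (lin y t p + α)) ≤ η ∧
      (1 - η) * omy y σ s ≤
        ∑ p : Pr y, aa σ p * Real.log p * Real.cos (lin y t p + α)} with hB
  have hBc : IsClosed B := by
    have c0 : IsClosed (Icc T (2 * T)) := isClosed_Icc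
    have c1 : IsClosed {t : ℝ | muy y σ s - η ≤ Sa y σ α (lin y t)} :=
      isClosed_le (by fun_prop) (by simp only [Sa, lin]; fun_prop)
    have c2 : IsClosed {t : ℝ |
        16 * ∑ p : Pr y, aa σ p ^ 2 * (1 - Real.cos (lin y t p + α)) ≤ η} :=
      isClosed_le (by simp only [lin]; fun_prop) (by fun_prop)
    have c3 : IsClosed {t : ℝ | (1 - η) * omy y σ s ≤
        ∑ p : Pr y, aa σ p * Real.log p * Real.cos (lin y t p + α)} :=
      isClosed_le (by fun_prop) (by simp only [lin]; fun_prop)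
    exact c0.inter (c1.inter (c2.inter c3))
  have hup : ∫ t in T..(2 * T), f (lin y t) ≤
      Real.exp (s * (muy y σ s + η)) * volume.real B := by
    have u1 : ∫ t in T..(2 * T), f (lin y t) ≤
        ∫ t in T..(2 * T), B.indicator (fun _ => Real.exp (s * (muy y σ s + η))) t := by
      refine intervalIntegral.integral_mono_on (by linarith) (hfc.intervalIntegrable _ _) ?_ ?_
      · rw [intervalIntegrable_iff_integrableOn_Ioc_of_le (by linarith)]
        exact (integrableOn_const (by simp)).indicator hBc.measurableSet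
      · intro t ht
        obtain ⟨q1, q2⟩ := lt_point y k σ α s η (muy y σ s) (omy y σ s) (lin y t) hs0 hη0 hμ0
          (by linarith)
        by_cases hP : lt_P y σ α η (muy y σ s) (omy y σ s) (lin y t)
        · rw [Set.indicator_of_mem (show t ∈ B from ⟨ht, hP⟩)]
          exact q1 hP
        · rw [Set.indicator_of_notMem (fun h : t ∈ B => hP h.2)]
          exact q2 hP
    refine u1.trans ?_
    rw [intervalIntegral.integral_of_le (by linarith), setIntegral_indicator hBc.measurableSet,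
      setIntegral_const, smul_eq_mul, mul_comm]
    refine mul_le_mul_of_nonneg_left ?_ (Real.exp_pos _).le
    refine measureReal_mono Set.inter_subset_right ?_
    refine ((measure_mono (fun t ht => ht.1)).trans_lt
      (measure_Icc_lt_top : volume (Icc T (2 * T)) < ⊤)).ne
  -- conclusion
  have hlow : 1 / 2 * Real.exp (∑ p : Pr y, ell (s * aa σ p)) * T ≤
      ∫ t in T..(2 * T), f (lin y t) := by
    have a1 := (abs_le.mp hM').1
    have a2 := (abs_le.mp hW').1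
    have a3 : 3 / 4 * Real.exp (∑ p : Pr y, ell (s * aa σ p)) - 41 / 400 ≤
      ∫ φ, f φ ∂tor y := by linarith
    have a4 := mul_le_mul_of_nonneg_left a3 hT.le
    nlinarith
  have hfin := hlow.trans hup
  have e6 : Real.exp (-(Ly y σ s) - s * η) =
      Real.exp (∑ p : Pr y, ell (s * aa σ p)) * Real.exp (-(s * (muy y σ s + η))) := by
    rw [← Real.exp_add, hLy]
    congr 1
    ring
  have e7 : Real.exp (s * (muy y σ s + η)) * Real.exp (-(s * (muy y σ s + η))) = 1 := by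
    rw [← Real.exp_add, add_neg_cancel, Real.exp_zero]
  rw [e6]
  have e8 := mul_le_mul_of_nonneg_right hfin (Real.exp_pos (-(s * (muy y σ s + η)))).le
  calc 1 / 2 * (Real.exp (∑ p : Pr y, ell (s * aa σ p)) *
        Real.exp (-(s * (muy y σ s + η)))) * T
      = 1 / 2 * Real.exp (∑ p : Pr y, ell (s * aa σ p)) * T *
        Real.exp (-(s * (muy y σ s + η))) := by ring
    _ ≤ Real.exp (s * (muy y σ s + η)) * volume.real B *
        Real.exp (-(s * (muy y σ s + η))) := e8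
    _ = (Real.exp (s * (muy y σ s + η)) * Real.exp (-(s * (muy y σ s + η)))) *
        volume.real B := by ring
    _ = volume.real B := by rw [e7, one_mul]

end Pool.Agent.Helper57.QZ
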