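import Pool.Agent.Helper57.QZ.Stmts2

/-!
# Tools for the lower bound along the line
-/

set_option autoImplicit false

namespace Pool.Agent.Helper57.QZ

open MeasureTheory Set Filter Topology

/-- the combination of the three bad functions -/
noncomputable def lt_g (y : ℕ) (σ η μ ω : ℝ) (x : Pr y → ℝ) : ℝ :=
  1 - (∑ p : Pr y, aa σ p * x p - μ) ^ 2 / η ^ 2 -
    16 * (∑ p : Pr y, aa σ p ^ 2 * (1 - x p)) / η -
    (∑ p : Pr y, aa σ p * Real.log p * x p - ω) ^ 2 / (η * ω) ^ 2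

theorem lt_cont_g (y : ℕ) (σ η μ ω : ℝ) : Continuous (lt_g y σ η μ ω) := by
  unfold lt_g
  fun_prop

theorem lt_prime {y : ℕ} (p : Pr y) : (p : ℕ).Prime ∧ (p : ℕ) ≤ y := by
  have h := Nat.mem_primesBelow.mp p.2
  exact ⟨h.2, by omega⟩

theorem lt_card (y : ℕ) : (Fintype.card (Pr y) : ℝ) ≤ y := by
  have h : Fintype.card (Pr y) = (Nat.primesBelow (y + 1)).card := Fintype.card_coe _
  rw [h]
  have h2 : (Nat.primesBelow (y + 1)).card ≤ (Finset.Icc 1 y).card := by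
    apply Finset.card_le_card
    intro p hp
    have hp := Nat.mem_primesBelow.mp hp
    rw [Finset.mem_Icc]
    exact ⟨hp.2.one_lt.le, by omega⟩
  rw [Nat.card_Icc, Nat.add_sub_cancel] at h2
  exact_mod_cast h2

theorem lt_a0 (σ : ℝ) (p : ℕ) : 0 ≤ aa σ p := Real.rpow_nonneg (Nat.cast_nonneg _) _

theorem lt_a1 {σ : ℝ} (hσ : 0 ≤ σ) {p : ℕ} (hp : 1 ≤ p) : aa σ p ≤ 1 :=
  Real.rpow_le_one_of_one_le_of_nonpos (by exact_mod_cast hp) (by linarith)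

theorem lt_log {x : ℝ} (hx : 0 < x) : Real.log x ≤ x ^ (1 / 2 : ℝ) := by
  have h1 : Real.log (x ^ (1 / 4 : ℝ)) = 1 / 4 * Real.log x := Real.log_rpow hx _
  have h2 : 0 < x ^ (1 / 4 : ℝ) := Real.rpow_pos_of_pos hx _
  have h3 := Real.log_le_sub_one_of_pos h2
  have h4 : (x ^ (1 / 4 : ℝ)) ^ 2 = x ^ (1 / 2 : ℝ) := by
    rw [← Real.rpow_natCast, ← Real.rpow_mul hx.le]
    norm_num
  nlinarith [sq_nonneg (x ^ (1 / 4 : ℝ) - 2)]

theorem lt_al {σ : ℝ} (hσ : 1 / 2 ≤ σ) {p : ℕ} (hp : 1 ≤ p) :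
    0 ≤ aa σ p * Real.log p ∧ aa σ p * Real.log p ≤ 1 := by
  have hp1 : (1 : ℝ) ≤ p := by exact_mod_cast hp
  have hp0 : (0 : ℝ) < p := by linarith
  refine ⟨mul_nonneg (lt_a0 _ _) (Real.log_nonneg hp1), ?_⟩
  have h1 : Real.log p ≤ (p : ℝ) ^ σ :=
    (lt_log hp0).trans (Real.rpow_le_rpow_of_exponent_le hp1 hσ)
  calc aa σ p * Real.log p ≤ aa σ p * (p : ℝ) ^ σ :=
        mul_le_mul_of_nonneg_left h1 (lt_a0 _ _)
    _ = 1 := by
        unfold aa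
        rw [← Real.rpow_add hp0, neg_add_cancel, Real.rpow_zero]

theorem lt_sum_le {y : ℕ} (c : Pr y → ℝ) (C : ℝ) (hc : ∀ p, |c p| ≤ C) (hC : 0 ≤ C) :
    ∑ p, |c p| ≤ C * y := by
  calc ∑ p, |c p| ≤ ∑ _p : Pr y, C := Finset.sum_le_sum fun p _ => hc p
    _ = (Fintype.card (Pr y) : ℝ) * C := by
        rw [Finset.sum_const, Finset.card_univ, nsmul_eq_mul]
    _ ≤ C * y := by
        rw [mul_comm]
        exact mul_le_mul_of_nonneg_left (lt_card y) hC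

/-- bounded continuous functions of the cosines are integrable -/
theorem lt_int (y : ℕ) (α : ℝ) (H : (Pr y → ℝ) → ℝ) (hH : Continuous H) :
    Integrable (fun φ : Pr y → ℝ => H (fun p => Real.cos (φ p + α))) (tor y) := by
  obtain ⟨B, hB⟩ := (isCompact_univ_pi (fun _ : Pr y => (isCompact_Icc : IsCompact
    (Icc (-1 : ℝ) 1)))).exists_bound_of_continuousOn hH.continuousOn
  refine Integrable.of_bound (Continuous.aestronglyMeasurable (by fun_prop)) B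
    (Eventually.of_forall fun φ => hB _ ?_)
  intro p _
  exact ⟨Real.neg_one_le_cos _, Real.cos_le_one _⟩

theorem lt_tp_bd {y D : ℕ} {C : ℝ} {F : (Pr y → ℝ) → ℂ} (h : TP y D C F) (φ : Pr y → ℝ) :
    ‖F φ‖ ≤ C := by
  obtain ⟨ι, _, n, c, -, h2, h3⟩ := h
  rw [h3]
  refine (norm_sum_le _ _).trans (le_trans (le_of_eq ?_) h2)
  refine Finset.sum_congr rfl fun j _ => ?_
  rw [norm_mul, Complex.norm_exp_ofReal_mul_I, mul_one]

theorem lt_tp_sum (hT : ST_TPA) (y : ℕ) {ι : Type} (s : Finset ι) (D : ℕ) (C : ι → ℝ)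
    (F : ι → (Pr y → ℝ) → ℂ) (h : ∀ i ∈ s, TP y D (C i) (F i)) :
    TP y D (∑ i ∈ s, C i) (fun φ => ∑ i ∈ s, F i φ) := by
  classical
  obtain ⟨t1, t2, t3, t4, t5, t6⟩ := hT y
  induction s using Finset.induction_on with
  | empty =>
    simp only [Finset.sum_empty]
    exact t6 0 D _ _ _ (Nat.zero_le _) (by simp) (t1 0)
  | insert a s ha ih =>
    simp only [Finset.sum_insert ha]
    have := t3 D D _ _ _ _ (h a (Finset.mem_insert_self _ _))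
      (ih fun i hi => h i (Finset.mem_insert_of_mem hi))
    rwa [max_self] at this

theorem lt_tp_aff (hT : ST_TPA) (y : ℕ) (α : ℝ) (c : Pr y → ℝ) (m : ℝ) (hc : ∀ p, |c p| ≤ 1)
    (hm : |m| ≤ y) :
    TP y 1 (2 * y) (fun φ => ((∑ p, c p * Real.cos (φ p + α) + m : ℝ) : ℂ)) := by
  obtain ⟨t1, t2, t3, t4, t5, t6⟩ := hT y
  have h1 : ∀ p : Pr y, TP y 1 (|c p|) (fun φ => ((c p * Real.cos (φ p + α) : ℝ) : ℂ)) := by
    intro p
    have := t4 _ _ _ _ _ _ (t1 (c p : ℂ)) (t2 p α)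
    refine t6 (0 + 1) 1 (‖(c p : ℂ)‖ * 1) _ _ (by norm_num) (le_of_eq ?_) ?_
    · rw [mul_one, Complex.norm_real, Real.norm_eq_abs]
    · simpa using this
  have h2 := lt_tp_sum hT y Finset.univ 1 _ _ (fun p _ => h1 p)
  have h3 := t3 _ _ _ _ _ _ h2 (t1 (m : ℂ))
  have h4 : ∑ p, |c p| + ‖(m : ℂ)‖ ≤ 2 * y := by
    have := lt_sum_le c 1 hc zero_le_one
    rw [Complex.norm_real, Real.norm_eq_abs]
    linarith
  have h5 := t6 _ 1 _ _ _ (by simp) h4 h3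
  convert h5 using 2
  push_cast
  rfl

theorem lt_exp_sum (k : ℕ) {C : ℝ} (hC : 0 ≤ C) :
    ∑ j ∈ Finset.range (k + 1), C ^ j / (j.factorial : ℝ) ≤ (1 + C) ^ k := by
  rw [add_comm 1 C, add_pow]
  refine Finset.sum_le_sum fun j hj => ?_
  rw [one_pow, mul_one]
  have hj' : j ≤ k := by
    have := Finset.mem_range.mp hj
    omega
  have h1 : (1 : ℝ) ≤ (k.choose j : ℝ) := by
    exact_mod_cast Nat.choose_pos hj'
  have h2 : (1 : ℝ) ≤ (j.factorial : ℝ) := by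
    exact_mod_cast Nat.factorial_pos j
  calc C ^ j / (j.factorial : ℝ) ≤ C ^ j := div_le_self (pow_nonneg hC _) h2
    _ ≤ C ^ j * (k.choose j : ℝ) := le_mul_of_one_le_right (pow_nonneg hC _) h1

theorem lt_tp_Ek (hT : ST_TPA) (y k : ℕ) {C : ℝ} (hC : 0 ≤ C) (f : (Pr y → ℝ) → ℝ)
    (hf : TP y 1 C (fun φ => ((f φ : ℝ) : ℂ))) :
    TP y k ((1 + C) ^ k) (fun φ => ((Ek k (f φ) : ℝ) : ℂ)) := by
  obtain ⟨t1, t2, t3, t4, t5, t6⟩ := hT y
  have h1 : ∀ j ∈ Finset.range (k + 1), TP y k (C ^ j / (j.factorial : ℝ))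
      (fun φ => ((f φ : ℝ) : ℂ) ^ j * ((1 / (j.factorial : ℝ) : ℝ) : ℂ)) := by
    intro j hj
    have hj' : j ≤ k := by
      have := Finset.mem_range.mp hj
      omega
    have := t4 _ _ _ _ _ _ (t5 _ _ _ hf j) (t1 (((1 / (j.factorial : ℝ) : ℝ) : ℂ)))
    refine t6 _ _ _ _ _ ?_ (le_of_eq ?_) this
    · omega
    · rw [Complex.norm_real, Real.norm_eq_abs, abs_of_nonneg (by positivity)]
      ring
  have h2 := lt_tp_sum hT y _ k _ _ h1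
  have h3 := t6 _ k _ _ _ le_rfl (lt_exp_sum k hC) h2
  convert h3 using 2
  unfold Ek
  push_cast
  refine Finset.sum_congr rfl fun j _ => ?_
  rw [div_eq_mul_inv, one_div]

theorem lt_tp_g (hT : ST_TPA) (y : ℕ) (σ α η μ ω : ℝ) (hy : 1 ≤ y) (hσ : 1 / 2 ≤ σ)
    (hη : η ∈ Ioo (0 : ℝ) 1) (hμ : |μ| ≤ y) (hω : |ω| ≤ y) (hω1 : 1 ≤ ω) :
    TP y 2 (41 * (y : ℝ) ^ 2 / η ^ 2)
      (fun φ => ((lt_g y σ η μ ω (fun p => Real.cos (φ p + α)) : ℝ) : ℂ)) := by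
  obtain ⟨t1, t2, t3, t4, t5, t6⟩ := hT y
  have hy1 : (1 : ℝ) ≤ y := by exact_mod_cast hy
  have hη0 := hη.1
  have hη1 := hη.2
  have hp1 : ∀ p : Pr y, 1 ≤ (p : ℕ) := fun p => (lt_prime p).1.one_lt.le
  have ha : ∀ p : Pr y, 0 ≤ aa σ p ∧ aa σ p ≤ 1 := fun p =>
    ⟨lt_a0 _ _, lt_a1 (by linarith) (hp1 p)⟩
  have ha2 : ∀ p : Pr y, 0 ≤ aa σ p ^ 2 ∧ aa σ p ^ 2 ≤ 1 := fun p =>
    ⟨sq_nonneg _, pow_le_one₀ (ha p).1 (ha p).2⟩
  have hsq : |∑ p : Pr y, aa σ p ^ 2| ≤ y := by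
    rw [abs_of_nonneg (Finset.sum_nonneg fun p _ => (ha2 p).1)]
    have := lt_sum_le (fun p : Pr y => aa σ p ^ 2) 1
      (fun p => by rw [abs_of_nonneg (ha2 p).1]; exact (ha2 p).2) zero_le_one
    simpa [abs_of_nonneg, (ha2 _).1] using this
  have A1 := lt_tp_aff hT y α (fun p => aa σ p) (-μ)
    (fun p => by rw [abs_of_nonneg (ha p).1]; exact (ha p).2) (by rwa [abs_neg])
  have A2 := lt_tp_aff hT y α (fun p => -(aa σ p ^ 2)) (∑ p : Pr y, aa σ p ^ 2)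
    (fun p => by rw [abs_neg, abs_of_nonneg (ha2 p).1]; exact (ha2 p).2) hsq
  have A3 := lt_tp_aff hT y α (fun p => aa σ p * Real.log p) (-ω)
    (fun p => by
      rw [abs_of_nonneg (lt_al hσ (hp1 p)).1]; exact (lt_al hσ (hp1 p)).2) (by rwa [abs_neg])
  have B0 : TP y 2 ((y : ℝ) ^ 2 / η ^ 2) (fun _ => (1 : ℂ)) := by
    refine t6 _ _ _ _ _ (by norm_num) ?_ (t1 1)
    rw [norm_one, le_div_iff₀ (by positivity)]
    nlinarith
  have B1 : TP y 2 (4 * (y : ℝ) ^ 2 / η ^ 2) _ :=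
    t6 _ 2 _ _ _ (by norm_num) (le_of_eq (by
      rw [Complex.norm_real, Real.norm_eq_abs, abs_neg, abs_of_nonneg (by positivity)]
      ring)) (t4 _ _ _ _ _ _ (t1 ((-(1 / η ^ 2) : ℝ) : ℂ)) (t5 _ _ _ A1 2))
  have B2 : TP y 2 (32 * (y : ℝ) ^ 2 / η ^ 2) _ :=
    t6 _ 2 _ _ _ (by norm_num) (by
      rw [Complex.norm_real, Real.norm_eq_abs, abs_neg, abs_of_nonneg (by positivity),
        div_mul_eq_mul_div, div_le_div_iff₀ hη0 (by positivity)]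
      have h1 : (y : ℝ) ≤ (y : ℝ) ^ 2 := by nlinarith
      have h2 : η ^ 2 ≤ η := by nlinarith
      nlinarith [mul_nonneg (sub_nonneg.mpr h1) hη0.le, mul_nonneg (sub_nonneg.mpr h2)
        (by linarith : (0 : ℝ) ≤ y)]) (t4 _ _ _ _ _ _ (t1 ((-(16 / η) : ℝ) : ℂ)) A2)
  have B3 : TP y 2 (4 * (y : ℝ) ^ 2 / η ^ 2) _ :=
    t6 _ 2 _ _ _ (by norm_num) (by
      rw [Complex.norm_real, Real.norm_eq_abs, abs_neg, abs_of_nonneg (by positivity)]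
      have h1 : 1 / (η * ω) ^ 2 ≤ 1 / η ^ 2 := by
        apply one_div_le_one_div_of_le (by positivity)
        rw [mul_pow]
        have : 1 ≤ ω ^ 2 := by nlinarith
        nlinarith [sq_nonneg η]
      calc 1 / (η * ω) ^ 2 * (2 * (y : ℝ)) ^ 2 ≤ 1 / η ^ 2 * (2 * (y : ℝ)) ^ 2 :=
            mul_le_mul_of_nonneg_right h1 (by positivity)
        _ = 4 * (y : ℝ) ^ 2 / η ^ 2 := by ring)
      (t4 _ _ _ _ _ _ (t1 ((-(1 / (η * ω) ^ 2) : ℝ) : ℂ)) (t5 _ _ _ A3 2))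
  have C1 := t3 _ _ _ _ _ _ (t3 _ _ _ _ _ _ (t3 _ _ _ _ _ _ B0 B1) B2) B3
  have C3 := t6 _ 2 _ (41 * (y : ℝ) ^ 2 / η ^ 2) _ (by simp) (le_of_eq (by ring)) C1
  convert C3 using 2
  unfold lt_g
  rw [← Complex.ofReal_one]
  simp only [← Complex.ofReal_pow, ← Complex.ofReal_mul, ← Complex.ofReal_add]
  congr 1
  simp only [neg_mul, mul_sub, mul_one, Finset.sum_sub_distrib, Finset.sum_neg_distrib]
  ring

end Pool.Agent.Helper57.QZ
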